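import Pool.Agent.MWGN.StmtsB

/-!
# Row KAR of squad MWGN (helper49)
-/

namespace Pool.Agent.MWGN.H49

open Pool.Agent.Helper14_MV Pool.Agent.Helper2_MV Pool.Agent.MWGN
open Pool.Agent.MWK (pre Gw)

variable {β : FIC}

theorem cx (p q : List ℕ) {l l' : List ℕ} (h : RR β l l') :
    RR β (p ++ (l ++ q)) (p ++ (l' ++ q)) :=
  (RR.refl p).append (h.append (RR.refl q))

/-- three words -/
def s3 (X Y Z : List ℕ) (i : ℕ) : List ℕ := if i = 0 then X else if i = 1 then Y else Z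

/-- a word `X` behind another `X` can be doubled -/
theorem dbl (h : Gw β) (W1 X W2 R : List ℕ) :
    RR β (W1 ++ (X ++ (W2 ++ (X ++ R)))) (W1 ++ (X ++ (W2 ++ (X ++ (X ++ R))))) := by
  have h1 := cx W1 R (h.gm.sub (s3 X W2 []))
  have e1 : W1 ++ (([0, 1, 0] : List ℕ).flatMap (s3 X W2 []) ++ R) =
      W1 ++ (X ++ (W2 ++ (X ++ R))) := by
    simp [s3, List.append_assoc]
  have e2 : W1 ++ (([0, 1, 0, 0] : List ℕ).flatMap (s3 X W2 []) ++ R) =
      W1 ++ (X ++ (W2 ++ (X ++ (X ++ R)))) := by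
    simp [s3, List.append_assoc]
  rw [e1, e2] at h1
  exact h1

/-- `A0` with words -/
theorem a0w (h : A0 β) (W X Z s r : List ℕ) :
    RR β (W ++ (X ++ (X ++ (Z ++ (s ++ (Z ++ r))))))
      (W ++ (X ++ (X ++ (Z ++ (X ++ (s ++ (Z ++ r))))))) := by
  have h1 := cx W r (RR.sub (s3 X Z s) h)
  have e1 : W ++ (([0, 0, 1, 2, 1] : List ℕ).flatMap (s3 X Z s) ++ r) =
      W ++ (X ++ (X ++ (Z ++ (s ++ (Z ++ r))))) := by
    simp [s3, List.append_assoc]
  have e2 : W ++ (([0, 0, 1, 0, 2, 1] : List ℕ).flatMap (s3 X Z s) ++ r) =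
      W ++ (X ++ (X ++ (Z ++ (X ++ (s ++ (Z ++ r)))))) := by
    simp [s3, List.append_assoc]
  rw [e1, e2] at h1
  exact h1

/-- squares commute -/
theorem cw (h : Gz β) (W X C r : List ℕ) :
    RR β (W ++ (X ++ (X ++ (C ++ (C ++ r))))) (W ++ (C ++ (C ++ (X ++ (X ++ r))))) := by
  have h1 := cx W r (h.c.sub (s3 X C []))
  have e1 : W ++ (([0, 0, 1, 1] : List ℕ).flatMap (s3 X C []) ++ r) =
      W ++ (X ++ (X ++ (C ++ (C ++ r)))) := by
    simp [s3, List.append_assoc]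
  have e2 : W ++ (([1, 1, 0, 0] : List ℕ).flatMap (s3 X C []) ++ r) =
      W ++ (C ++ (C ++ (X ++ (X ++ r)))) := by
    simp [s3, List.append_assoc]
  rw [e1, e2] at h1
  exact h1

/-- `k` with words -/
theorem kw (h : Gz β) (X Y t r : List ℕ) :
    RR β (X ++ (Y ++ (t ++ (X ++ (Y ++ r))))) (Y ++ (X ++ (t ++ (X ++ (Y ++ r))))) := by
  have h1 := (h.k.sub (s3 X Y t)).append (RR.refl r)
  have e1 : ([0, 1, 2, 0, 1] : List ℕ).flatMap (s3 X Y t) ++ r =
      X ++ (Y ++ (t ++ (X ++ (Y ++ r)))) := by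
    simp [s3, List.append_assoc]
  have e2 : ([1, 0, 2, 0, 1] : List ℕ).flatMap (s3 X Y t) ++ r =
      Y ++ (X ++ (t ++ (X ++ (Y ++ r)))) := by
    simp [s3, List.append_assoc]
  rw [e1, e2] at h1
  exact h1

/-- `Z` is a factor of `R` -/
def In (Z R : List ℕ) : Prop := ∃ s r, R = s ++ (Z ++ r)

theorem In.left {Z R : List ℕ} (h : In Z R) (p : List ℕ) : In Z (p ++ R) := by
  obtain ⟨s, r, e⟩ := h
  exact ⟨p ++ s, r, by rw [e, List.append_assoc]⟩

/-- step over a light word -/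
theorem st1 (h : Gw β) (hA : A0 β) {W X Z R : List ℕ} (hW : In X W) (hR : In Z R) :
    RR β (W ++ (X ++ (Z ++ R))) (W ++ (X ++ (Z ++ (X ++ R)))) := by
  obtain ⟨W1, W2, rfl⟩ := hW
  obtain ⟨s, r, rfl⟩ := hR
  have h1 := dbl h W1 X W2 (Z ++ (s ++ (Z ++ r)))
  have h2 := a0w hA (W1 ++ (X ++ W2)) X Z s r
  have h3 := dbl h W1 X W2 (Z ++ (X ++ (s ++ (Z ++ r))))
  simp only [List.append_assoc] at h1 h2 h3 ⊢
  exact β.trans h1 (β.trans h2 (β.symm h3))

/-- step over a light word and a square -/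
theorem st2 (h : Gz β) (hA : A0 β) {W X Z R : List ℕ} (C : List ℕ) (hW : In X W)
    (hR : In Z R) :
    RR β (W ++ (X ++ (Z ++ (C ++ (C ++ R))))) (W ++ (X ++ (Z ++ (C ++ (C ++ (X ++ R)))))) := by
  have h1 := st1 h.gw hA (R := C ++ (C ++ R)) hW ((hR.left C).left C)
  have h2 := dbl h.gw W X Z (C ++ (C ++ R))
  have h3 := cw h (W ++ (X ++ Z)) X C R
  have h4 := dbl h.gw W X (Z ++ (C ++ C)) R
  simp only [List.append_assoc] at h1 h2 h3 h4 ⊢
  exact β.trans h1 (β.trans h2 (β.trans h3 (β.symm h4)))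

theorem bd_succ (L C : ℕ → List ℕ) (j : ℕ) :
    bd L C (j + 1) = bd L C j ++ (L j ++ (C j ++ C j)) := by
  simp [bd, List.range_succ]

/-- the claim -/
theorem clm (h : Gz β) (hA : A0 β) {G X : List ℕ} (L C : ℕ → List ℕ) (hG : In X G) :
    ∀ (j : ℕ) (R : List ℕ), (∀ i < j, In (L i) R) →
      RR β (G ++ (X ++ (bd L C j ++ R))) (G ++ (X ++ (bd L C j ++ (X ++ R)))) := by
  intro j
  induction j with
  | zero =>
    intro R _
    obtain ⟨W1, W2, rfl⟩ := hG
    have h1 := dbl h.gw W1 X W2 R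
    have e : bd L C 0 = [] := rfl
    rw [e]
    simp only [List.append_assoc, List.nil_append] at h1 ⊢
    exact h1
  | succ j ih =>
    intro R hR
    have hR1 : ∀ i < j, In (L i) (L j ++ (C j ++ (C j ++ R))) := fun i hi =>
      (((hR i (by omega)).left (C j)).left (C j)).left (L j)
    have hR2 : ∀ i < j, In (L i) (L j ++ (C j ++ (C j ++ (X ++ R)))) := fun i hi =>
      ((((hR i (by omega)).left X).left (C j)).left (C j)).left (L j)
    have h1 := ih _ hR1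
    have h2 := st2 h hA (W := G ++ (X ++ bd L C j)) (X := X) (Z := L j) (R := R) (C j)
      ⟨G, bd L C j, rfl⟩ (hR j (by omega))
    have h3 := ih _ hR2
    rw [bd_succ]
    simp only [List.append_assoc] at h1 h2 h3 ⊢
    exact β.trans h1 (β.trans h2 (β.symm h3))

theorem in_tail {S L : ℕ → List ℕ} {τ : List ℕ} {i : ℕ} (h : i ∈ τ) :
    In (L i) (τ.flatMap (fun i => S i ++ L i)) := by
  obtain ⟨a, b, rfl⟩ := List.append_of_mem h
  refine ⟨a.flatMap (fun i => S i ++ L i) ++ S i, b.flatMap (fun i => S i ++ L i), ?_⟩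
  rw [List.flatMap_append, List.flatMap_cons]
  simp only [List.append_assoc]

/-- `X` can be inserted behind `L m` -/
theorem ins (h : Gz β) (hA : A0 β) {G X : List ℕ} (L C : ℕ → List ℕ) (hG : In X G) (m : ℕ)
    (R : List ℕ) (hR : ∀ i ≤ m, In (L i) R) :
    RR β (G ++ (X ++ (bd L C m ++ (L m ++ R)))) (G ++ (X ++ (bd L C m ++ (L m ++ (X ++ R))))) := by
  have h1 := clm h hA L C hG m (L m ++ R) (fun i hi => (hR i (by omega)).left _)
  have h2 := st1 h.gw hA (W := G ++ (X ++ bd L C m)) (X := X) (Z := L m) (R := R)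
    ⟨G, bd L C m, rfl⟩ (hR m le_rfl)
  have h3 := clm h hA L C hG m (L m ++ (X ++ R)) (fun i hi => ((hR i (by omega)).left _).left _)
  simp only [List.append_assoc] at h1 h2 h3 ⊢
  exact β.trans h1 (β.trans h2 (β.symm h3))

/-- **KAR** -/
theorem kar : KarStmt := by
  intro β h hA m τ hτ X Y A B S L C
  have hR : ∀ i ≤ m, In (L i) (Y ++ (B ++ τ.flatMap (fun i => S i ++ L i))) := fun i hi =>
    ((in_tail ((hτ.2 i).2 hi)).left B).left Y
  have h1 := ins h hA (G := X ++ (Y ++ A)) (X := X) L C ⟨[], Y ++ A, rfl⟩ m _ hR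
  have h2 := ins h hA (G := Y ++ (X ++ A)) (X := X) L C ⟨Y, A, rfl⟩ m _ hR
  have h3 := kw h X Y (A ++ (X ++ (bd L C m ++ L m))) (B ++ τ.flatMap (fun i => S i ++ L i))
  unfold kr
  simp only [List.append_assoc] at h1 h2 h3 ⊢
  exact β.trans h1 (β.trans h3 (β.symm h2))

end Pool.Agent.MWGN.H49
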