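import Pool.Agent.MWGN.StmtsC
import Pool.Agent.Helper77_MWF.CTT
import Pool.Agent.Helper27_MWF.POW
import Pool.Agent.Helper42_MWF.SIM

/-!
# Squad MWGN, row VCF (helper49): `β` keeps `Kx` and `Ky`
-/

set_option autoImplicit false

namespace Pool.Agent.MWGN.H49C

open Pool.Agent.Helper14_MV Pool.Agent.Helper2_MV
open Pool.Agent.MWK (pre Gw)
open Pool.Agent.MWF (Ap gaml)
open Pool.Agent.MWGN

theorem ctt : Pool.Agent.MWF.CttStmt := Pool.Agent.MWF.H77.ctt Pool.Agent.MWF.H27.pow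

theorem sim : Pool.Agent.MWF.SimStmt :=
  Pool.Agent.MWF.H42.sim Pool.Agent.MWF.H27.pow ctt

theorem two {β : FIC} (hg : Gw β) {w w' : List ℕ} (h : RR β w w') (c : ℕ)
    (hc : 2 ≤ w.count c) : 2 ≤ w'.count c := by
  have h1 : c ∈ w' := (ctt β hg.ap w w' h c).1 (List.count_pos_iff.1 (by omega))
  have h2 : 0 < w'.count c := List.count_pos_iff.2 h1
  have h3 : w'.count c ≠ 1 := fun h3 => by
    have := sim β hg.ap w' w h.symm c h3
    omega
  omega

theorem nn_self (w : List ℕ) (c : ℕ) : nn w c c = 0 := by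
  unfold nn
  exact List.count_eq_zero.2 (Pool.Agent.MWK.not_mem_pre w c)

theorem nn_le (w : List ℕ) (c q : ℕ) : nn w c q ≤ w.count c :=
  Pool.Agent.MWK.count_pre_le w c q

/-- the tails of `NF` are kept -/
theorem wtk (holr : OlrStmt) {β : FIC} (hg : Gw β) (hE : ¬ E0 β) {τ : List ℕ} {m : ℕ}
    {w w' : List ℕ} (h : RR β w w') (hc : WT NF τ m w) : WT NF τ m w' := by
  have hs : ∀ c, w.count c = 1 → w'.count c = 1 := sim β hg.ap w w' h
  have hO := holr β hg hE w w' h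
  have hbS : ∀ i, NF.b ≠ NF.S i := by
    intro i he
    have he' : (2 : ℕ) = 3 + 3 * i := he
    omega
  have hSS : ∀ i j, i ≠ j → NF.S i ≠ NF.S j := by
    intro i j hij he
    have he' : 3 + 3 * i = 3 + 3 * j := he
    omega
  refine
    { ss := fun i hi => hs _ (hc.ss i hi)
      oS := fun i hi => ?_
      os := fun i j hi hj hij => ?_
      lt := fun i hi => ?_
      lT := fun i j hi hj hij => ?_ }
  · have h0 := hc.oS i hi
    have h1 : NF.S i ∉ pre w NF.b := List.count_eq_zero.1 h0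
    have hw : NF.S i ∈ w := List.count_pos_iff.1 (by rw [hc.ss i hi]; exact Nat.one_pos)
    have h3 : NF.b ∈ pre w (NF.S i) :=
      (Pool.Agent.MWK.pre_total hw (Ne.symm (hbS i))).resolve_left h1
    have h4 : nn w NF.b (NF.S i) ≠ 0 := fun h4 => (List.count_eq_zero.1 h4) h3
    have h5 : nn w' NF.b (NF.S i) ≠ 0 := fun h5 =>
      h4 ((hO NF.b (NF.S i) (hc.ss i hi) (hbS i)).1.2 h5)
    have h6 : NF.b ∈ pre w' (NF.S i) := List.count_pos_iff.1 (Nat.pos_of_ne_zero h5)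
    exact List.count_eq_zero.2 (Pool.Agent.MWK.pre_asymm h6)
  · have hne : i ≠ j := by
      intro he
      rw [he] at hij
      exact Pool.Agent.MWK.not_mem_pre τ j hij
    exact (hO (NF.S j) (NF.S i) (hc.ss i hi) (hSS j i (Ne.symm hne))).1.1
      (hc.os i j hi hj hij)
  · have h1 := hc.lt i hi
    have hne : NF.L i ≠ NF.S i := by
      intro he
      rw [he, nn_self] at h1
      omega
    exact (hO (NF.L i) (NF.S i) (hc.ss i hi) hne).2.1.1 h1
  · have h1 := hc.lT i j hi hj hij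
    have hne : NF.L i ≠ NF.S j := by
      intro he
      rw [he, nn_self, hc.ss j hj] at h1
      omega
    exact (hO (NF.L i) (NF.S j) (hc.ss j hj) hne).2.2.1 h1

/-- `KF` is kept -/
theorem kfk (holr : OlrStmt) (htlr : TlrStmt) {β : FIC} (hg : Gw β) (hE : ¬ E0 β)
    (hP : ¬ P0 β) (hA : ¬ A0 β) {τ : List ℕ} {r : ℕ} {w w' : List ℕ} (h : RR β w w')
    (hc : KF τ r w) : KF τ r w' := by
  have hs : ∀ c, w.count c = 1 → w'.count c = 1 := sim β hg.ap w w' h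
  have h2 : ∀ c, 2 ≤ w.count c → 2 ≤ w'.count c := fun c => two hg h c
  have hO := holr β hg hE w w' h
  have hT := htlr β hg hE hP w w' h
  have hT' := htlr β hg hE hP w' w h.symm
  have hne : ∀ c s, 2 ≤ w.count c → w.count s = 1 → c ≠ s := by
    intro c s h1 h2 he
    rw [he] at h1
    omega
  have xb' : nn w' 0 2 = w'.count 0 := (hO 0 2 hc.sb (hne _ _ hc.x2 hc.sb)).2.2.1 hc.xb
  have yb' : nn w' 1 2 = w'.count 1 := (hO 1 2 hc.sb (hne _ _ hc.y2 hc.sb)).2.2.1 hc.yb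
  have lb' : ∀ i ≤ r + 2, nn w' (NF.L i) 2 = 1 := fun i hi =>
    (hO _ 2 hc.sb (hne _ _ (hc.l2 i hi) hc.sb)).2.1.1 (hc.lb i hi)
  have l2' : ∀ i ≤ r + 2, 2 ≤ w'.count (NF.L i) := fun i hi => h2 _ (hc.l2 i hi)
  refine
    { sb := hs _ hc.sb
      x2 := h2 _ hc.x2
      y2 := h2 _ hc.y2
      xb := xb'
      yb := yb'
      l2 := l2'
      lb := lb'
      c2 := fun i hi hir => h2 _ (hc.c2 i hi hir)
      cb := fun i hi hir => (hO _ 2 hc.sb (hne _ _ (hc.c2 i hi hir) hc.sb)).2.2.1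
        (hc.cb i hi hir)
      x0 := ?_
      xr := ?_
      xt := (hT 0 (NF.L (r + 2)) 2 hc.sb hc.x2 (hc.l2 _ le_rfl) (hc.lb _ le_rfl) hc.xb).1 hA
        hc.xt
      y0 := (hT 1 (NF.L 0) 2 hc.sb hc.y2 (hc.l2 0 (by omega)) (hc.lb 0 (by omega)) hc.yb).2.1
        hc.y0
      y1 := ?_
      yr := ?_
      cl0 := fun i hi hir j hj => (hT (NF.C i) (NF.L j) 2 hc.sb (hc.c2 i hi hir)
        (hc.l2 j (by omega)) (hc.lb j (by omega)) (hc.cb i hi hir)).2.1 (hc.cl0 i hi hir j hj)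
      cl1 := fun i hi hir j hij hj => (hT (NF.C i) (NF.L j) 2 hc.sb (hc.c2 i hi hir)
        (hc.l2 j hj) (hc.lb j hj) (hc.cb i hi hir)).1 hA (hc.cl1 i hi hir j hij hj)
      wt := wtk holr hg hE h hc.wt }
  · by_contra hlt
    have h0 : nn w' 0 (NF.L 0) = 0 := by omega
    have h1 := (hT' 0 (NF.L 0) 2 (hs _ hc.sb) (h2 _ hc.x2) (l2' 0 (by omega))
      (lb' 0 (by omega)) xb').2.1 h0
    have h3 := hc.x0
    omega
  · refine lt_of_le_of_ne (nn_le _ _ _) (fun h0 => ?_)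
    have h1 := (hT' 0 (NF.L (r + 1)) 2 (hs _ hc.sb) (h2 _ hc.x2) (l2' _ (by omega))
      (lb' _ (by omega)) xb').1 hA h0
    have h3 := hc.xr
    omega
  · by_contra hlt
    have h0 : nn w' 1 (NF.L 1) = 0 := by omega
    have h1 := (hT' 1 (NF.L 1) 2 (hs _ hc.sb) (h2 _ hc.y2) (l2' 1 (by omega))
      (lb' 1 (by omega)) yb').2.1 h0
    have h3 := hc.y1
    omega
  · refine lt_of_le_of_ne (nn_le _ _ _) (fun h0 => ?_)
    have h1 := (hT' 1 (NF.L (r + 2)) 2 (hs _ hc.sb) (h2 _ hc.y2) (l2' _ le_rfl)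
      (lb' _ le_rfl) yb').1 hA h0
    have h3 := hc.yr
    omega

/-- **VCF** -/
theorem vcf (holr : OlrStmt) (htlr : TlrStmt) (hveq : VeqStmt) (hrun : RunStmt)
    (hfaa : FaaStmt) (hfap : FapStmt) : VcfStmt := by
  intro β hG τ r hr hτ hmin hFB w w' h
  have hA : ¬ A0 β := fun hA => hFB (hfaa β hG hA r τ hτ)
  have hP : ¬ P0 β := fun hP => hFB (hfap β hG hP r τ hτ)
  have hE : ¬ E0 β := fun h => hA (RR.append h (RR.refl (β := β) [2, 1]))
  have hk : KF τ r w → KF τ r w' := fun hc => kfk holr htlr hG.gw hE hP hA h hc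
  constructor
  · rintro ⟨hc, he⟩
    refine ⟨hk hc, ?_⟩
    obtain ⟨a1, a2, -, -, a5, -⟩ := hrun τ r hr hτ w hc
    obtain ⟨b1, b2, -, -, -, -⟩ := hrun τ r hr hτ w' (hk hc)
    have hv := hveq β hG Nx τ r a5 hτ hmin hFB w w' h a1 a2 b1 b2
    have e0 : Nx.L 0 = NF.L 0 := rfl
    have e1 : Nx.L r = NF.L (r + 1) := by
      show NF.L (ix r) = NF.L (r + 1)
      rw [ix, if_neg (by omega)]
    have e2 : Nx.x = 0 := rfl
    rw [e0, e1, e2] at hv
    exact hv he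
  · rintro ⟨hc, he⟩
    refine ⟨hk hc, ?_⟩
    obtain ⟨-, -, a3, a4, -, a6⟩ := hrun τ r hr hτ w hc
    obtain ⟨-, -, b3, b4, -, -⟩ := hrun τ r hr hτ w' (hk hc)
    have hv := hveq β hG (Ny r) τ r a6 hτ hmin hFB w w' h a3 a4 b3 b4
    have e0 : (Ny r).L 0 = NF.L 1 := by
      show NF.L (iy r 0) = NF.L 1
      rw [iy, if_neg (by omega)]
    have e1 : (Ny r).L r = NF.L (r + 2) := by
      show NF.L (iy r r) = NF.L (r + 2)
      rw [iy, if_pos rfl]
    have e2 : (Ny r).x = 1 := rfl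
    rw [e0, e1, e2] at hv
    exact hv he

end Pool.Agent.MWGN.H49C
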